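import Pool.Agent.R693.W.VirAcc

/-!
# The ascending chain condition on primitive ideals for Witt and Virasoro enveloping algebras

Over an algebraically closed field of characteristic zero, the enveloping algebras of
`W_{-1} = Der k[t]`, of the Witt algebra `W = Der k[t, t⁻¹]` and of the Virasoro algebra satisfy the
ascending chain condition on primitive ideals.

Idea (see `Pool/Agent/R693/W`).  Let `x m = t^m ∂`, and let the polynomial ring in shift operators act
on functions of several indices.  Every nonzero ideal `I` of an algebra generated by the `x m` contains,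
for some `d` and `N`, all values of `Δ^N (x (n 0) ⋯ x (n (d-1)))`, with `Δ` the discriminant of the
shifts.  With `J ⊆ I` such an ideal and `d` minimal, `Δ^N` applied to products of `d - 1` generators
gives elements `η n`; modulo `J` the functions `n ↦ u η n`, `u` in the algebra, form a module over
`F[shifts]` localised away from `Δ`, with a filtration making it Noetherian together with the action of
the derivations and the operators `x m`, so the right-hand products `I η` stabilise along a chain of
ideals.  A prime ideal containing `I_n` either contains all values of `η` (induction on `d`) or contains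
the whole chain.  For the Virasoro algebra the same reduction shows that a nonzero ideal contains a
nonzero polynomial in the central element `z`, that `U / (z - a)` is simple for `a ≠ 0`, and the case
`a = 0` is the Witt algebra.
-/

set_option autoImplicit false

namespace Pool.Agent.Results.MP_940f41_al.ChainPrimitive

open Pool.Agent.R693

universe u v

/-- `L` is the Lie algebra `W_{-1} = Der F[t]`: it has a basis `e_n`, `n ≥ -1`, with
`[e_i, e_j] = (j - i) e_{i + j}` (which for `i = j = -1` is `[e_{-1}, e_{-1}] = 0`). -/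
def IsWittMinusOne (F : Type u) [Field F] (L : Type v) [LieRing L] [LieAlgebra F L] : Prop :=
  ∃ b : Module.Basis {n : ℤ // -1 ≤ n} F L, ∀ i j k : {n : ℤ // -1 ≤ n},
    (k : ℤ) = i + j → ⁅b i, b j⁆ = (((j : ℤ) - i : ℤ) : F) • b k

/-- `L` is the Witt algebra: it has a basis `e_n`, `n ∈ ℤ`, with `[e_i, e_j] = (j - i) e_{i + j}`. -/
def IsWitt (F : Type u) [Field F] (L : Type v) [LieRing L] [LieAlgebra F L] : Prop :=
  ∃ b : Module.Basis ℤ F L, ∀ i j : ℤ, ⁅b i, b j⁆ = ((j - i : ℤ) : F) • b (i + j)

/-- `L` is the Virasoro algebra: it has a basis consisting of `e_n = b (some n)`, `n ∈ ℤ`, and the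
central element `c = b none`, with `[e_i, e_j] = (j - i) e_{i + j} + δ_{i + j, 0} (i ^ 3 - i) / 12 c`. -/
def IsVirasoro (F : Type u) [Field F] (L : Type v) [LieRing L] [LieAlgebra F L] : Prop :=
  ∃ b : Module.Basis (Option ℤ) F L, (∀ x : L, ⁅b none, x⁆ = 0) ∧
    ∀ i j : ℤ, ⁅b (some i), b (some j)⁆ = ((j - i : ℤ) : F) • b (some (i + j)) +
      (if i + j = 0 then (((i : F) ^ 3 - (i : F)) / 12) • b none else 0)

/-- A two-sided ideal is primitive if it is the annihilator of a simple left module. -/
def IsPrimitive {A : Type u} [Ring A] (P : TwoSidedIdeal A) : Prop :=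
  ∃ (M : Type u) (_ : AddCommGroup M) (_ : Module A M),
    IsSimpleModule A M ∧ ∀ x : A, x ∈ P ↔ ∀ m : M, x • m = 0

/-- The ascending chain condition on primitive ideals. -/
def ACCPrimitive (A : Type u) [Ring A] : Prop :=
  ∀ Q : ℕ → TwoSidedIdeal A, Monotone Q → (∀ i, IsPrimitive (Q i)) → ∃ n, ∀ m, n ≤ m → Q m = Q n

lemma IsPrimitive.prime {A : Type u} [Ring A] {P : TwoSidedIdeal A} (h : IsPrimitive P) :
    W.IsPrimeT P := by
  obtain ⟨M, _, _, hs, hP⟩ := h
  refine ⟨?_, ?_⟩
  · intro htop
    have h1 : (1 : A) ∈ P := by rw [htop]; trivial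
    rw [hP] at h1
    have := IsSimpleModule.nontrivial A M
    obtain ⟨m, hm⟩ := exists_ne (0 : M)
    exact hm (by simpa using h1 m)
  · intro I J hIJ
    by_cases hJ : J ≤ P
    · exact Or.inr hJ
    · left
      have hex : ∃ y ∈ J, y ∉ P := by
        by_contra h
        push Not at h
        exact hJ fun y hy => h y hy
      obtain ⟨y, hy, hyP⟩ := hex
      rw [hP] at hyP
      push Not at hyP
      obtain ⟨m, hm⟩ := hyP
      intro x hx
      rw [hP]
      intro m'
      have h1 : Submodule.span A {y • m} = ⊤ :=
        (hs.eq_bot_or_eq_top _).resolve_left (by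
          rw [Submodule.span_singleton_eq_bot]
          exact hm)
      have h2 : m' ∈ Submodule.span A {y • m} := by rw [h1]; trivial
      rw [Submodule.mem_span_singleton] at h2
      obtain ⟨a, rfl⟩ := h2
      rw [← mul_smul, ← mul_smul]
      have h3 : x * (a * y) ∈ P := hIJ x hx _ (J.mul_mem_left _ _ hy)
      rw [mul_assoc]
      exact (hP _).mp h3 m

section
attribute [local instance 100] LieRing.ofAssociativeRing

variable {F : Type u} [Field F] {L : Type v} [LieRing L] [LieAlgebra F L]

lemma iota_comm (x y : L) : UniversalEnvelopingAlgebra.ι F x * UniversalEnvelopingAlgebra.ι F y -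
    UniversalEnvelopingAlgebra.ι F y * UniversalEnvelopingAlgebra.ι F x =
      UniversalEnvelopingAlgebra.ι F ⁅x, y⁆ := by
  rw [LieHom.map_lie, LieRing.of_associative_ring_bracket]

lemma acc_of_semiprime {A : Type u} [Ring A]
    (h : ∀ I : ℕ → TwoSidedIdeal A, Monotone I → (∀ i, W.IsSemiprimeT (I i)) →
      ∃ n, ∀ m, n ≤ m → I m = I n) : ACCPrimitive A :=
  fun Q hQ hp => h Q hQ fun i => (hp i).prime.semiprime

lemma acc_wittMinusOne [CharZero F] (h : IsWittMinusOne F L) :
    ACCPrimitive (UniversalEnvelopingAlgebra F L) := by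
  obtain ⟨b, hb⟩ := h
  apply acc_of_semiprime
  have hW : W.IsW F (fun n : ℕ => UniversalEnvelopingAlgebra.ι F
      (b ⟨(n : ℤ) - 1, by omega⟩)) := by
    intro m n j hmn
    beta_reduce
    have h2 : (W.Lab.one : ℕ) = 1 := rfl
    have h3 : ∀ k : ℕ, (W.Lab.c k : ℤ) = k := fun k => rfl
    rw [h2] at hmn
    rw [iota_comm, hb ⟨(m : ℤ) - 1, by omega⟩ ⟨(n : ℤ) - 1, by omega⟩ ⟨(j : ℤ) - 1, by omega⟩
      (by push_cast; omega), map_smul, h3, h3]
    congr 2
    ring
  refine W.acc_semiprime (F := F) hW (W.span_of_adjoin ?_)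
  rw [eq_top_iff, ← W.uea_adjoin_basis F b, Algebra.adjoin_le_iff]
  rintro _ ⟨⟨i, hi⟩, rfl⟩
  refine Algebra.subset_adjoin ⟨(i + 1).toNat, ?_⟩
  beta_reduce
  congr 3
  omega

lemma acc_witt [CharZero F] (h : IsWitt F L) :
    ACCPrimitive (UniversalEnvelopingAlgebra F L) := by
  obtain ⟨b, hb⟩ := h
  apply acc_of_semiprime
  have hW : W.IsW F (fun n : ℤ => UniversalEnvelopingAlgebra.ι F (b (n - 1))) := by
    intro m n j hmn
    beta_reduce
    have h2 : (W.Lab.one : ℤ) = 1 := rfl
    have h3 : ∀ k : ℤ, (W.Lab.c k : ℤ) = k := fun k => rfl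
    rw [h2] at hmn
    rw [iota_comm, hb, map_smul, h3, h3]
    congr 2
    · ring
    · congr 1
      omega
  refine W.acc_semiprime (F := F) hW (W.span_of_adjoin ?_)
  rw [eq_top_iff, ← W.uea_adjoin_basis F b, Algebra.adjoin_le_iff]
  rintro _ ⟨i, rfl⟩
  exact Algebra.subset_adjoin ⟨i + 1, by beta_reduce; rw [add_sub_cancel_right]⟩

lemma acc_virasoro [CharZero F] [IsAlgClosed F] (h : IsVirasoro F L) :
    ACCPrimitive (UniversalEnvelopingAlgebra F L) := by
  obtain ⟨b, hb0, hb⟩ := h
  apply acc_of_semiprime
  have hgen := W.uea_adjoin_basis F b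
  have hV : Vir.IsVirZ F (fun n : ℤ => - UniversalEnvelopingAlgebra.ι F (b (some n)))
      (UniversalEnvelopingAlgebra.ι F (b none)) := by
    constructor
    · intro x
      have hx : x ∈ Algebra.adjoin F
        (Set.range fun i => UniversalEnvelopingAlgebra.ι F (b i)) := by rw [hgen]; trivial
      induction hx using Algebra.adjoin_induction with
      | mem x hx =>
        obtain ⟨i, rfl⟩ := hx
        rw [← sub_eq_zero]
        beta_reduce
        rw [iota_comm, hb0, map_zero]
      | algebraMap r => exact (Algebra.commutes r _).symm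
      | add x y _ _ hx hy => rw [mul_add, add_mul, hx, hy]
      | mul x y _ _ hx hy => rw [← mul_assoc, hx, mul_assoc, hy, mul_assoc]
    · intro m n
      beta_reduce
      rw [neg_mul_neg, neg_mul_neg, iota_comm, hb, map_add, map_smul]
      congr 1
      · rw [smul_neg, ← neg_smul]
        congr 1
        push_cast
        ring
      · split_ifs
        · rw [map_smul]
        · exact map_zero _
  refine Vir.acc_semiprime_vir hV ?_
  rw [eq_top_iff, ← hgen, Algebra.adjoin_le_iff]
  rintro _ ⟨i, rfl⟩
  cases i with
  | none => exact Algebra.subset_adjoin (Set.mem_insert _ _)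
  | some i =>
    have h1 : - UniversalEnvelopingAlgebra.ι F (b (some i)) ∈ Algebra.adjoin F
        (insert (UniversalEnvelopingAlgebra.ι F (b none))
          (Set.range fun n : ℤ => - UniversalEnvelopingAlgebra.ι F (b (some n)))) :=
      Algebra.subset_adjoin (Set.mem_insert_of_mem _ ⟨i, rfl⟩)
    have h2 := Subalgebra.neg_mem _ h1
    rwa [neg_neg] at h2

end

/-- Over an algebraically closed field of characteristic zero, the enveloping algebras of `W_{-1}`,
of the Witt algebra and of the Virasoro algebra satisfy the ascending chain condition on primitive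
ideals. -/
theorem result (F : Type u) [Field F] [IsAlgClosed F] [CharZero F] (L : Type v) [LieRing L]
    [LieAlgebra F L] (hL : IsWittMinusOne F L ∨ IsWitt F L ∨ IsVirasoro F L) :
    ACCPrimitive (UniversalEnvelopingAlgebra F L) := by
  rcases hL with h | h | h
  · exact acc_wittMinusOne h
  · exact acc_witt h
  · exact acc_virasoro h

end Pool.Agent.Results.MP_940f41_al.ChainPrimitive
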